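import Pool.Agent.Sid84.Main

/-!
# A rate for `R(3,G) = o(m) + O(k)` (helper50)

The constants of `main_step` are at most `exp (exp (434 / ε))` for `ε ≤ 1`; this gives
`R(3,G) ≤ K (k + m / log log (16 + m / k))`.
-/

set_option autoImplicit false

namespace Pool.Agent.Sid84

open Finset

open scoped Classical

theorem ramsey_exp (ε : ℝ) (hε : 0 < ε) (hε1 : ε ≤ 1)
    (V W : Type) [Fintype V] [Fintype W] (H : SimpleGraph V) (G : SimpleGraph W)
    (hH : H.CliqueFree 3) (hm : ε * (G.edgeSet.ncard : ℝ) ≤ Fintype.card V)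
    (hk : Real.exp (Real.exp (434 / ε)) * (Fintype.card W : ℝ) ≤ Fintype.card V) :
    ∃ f : W → V, Function.Injective f ∧ ∀ u v, G.Adj u v → ¬ H.Adj (f u) (f v) := by
  obtain ⟨ε', hε'⟩ : ∃ x : ℝ, x = ε / 9 := ⟨_, rfl⟩
  obtain ⟨α, hα⟩ : ∃ x : ℝ, x = Real.exp (-(32 / ε')) := ⟨_, rfl⟩
  obtain ⟨τ, hτ⟩ : ∃ x : ℝ, x = α / 4 := ⟨_, rfl⟩
  obtain ⟨ρ, hρ⟩ : ∃ x : ℝ, x = 2 / (ε' * τ) := ⟨_, rfl⟩
  obtain ⟨β, hβ⟩ : ∃ x : ℝ, x = Real.exp (-(2 * ρ)) / 2 := ⟨_, rfl⟩
  obtain ⟨K2, hK2⟩ : ∃ x : ℝ, x = 17 / ε := ⟨_, rfl⟩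
  obtain ⟨R, hR⟩ : ∃ x : ℝ, x = 48 * (1 + K2) / (β * τ * ε') := ⟨_, rfl⟩
  obtain ⟨lam0, hl0⟩ : ∃ x : ℕ, x = ⌈R ^ 2⌉₊ + 1 := ⟨_, rfl⟩
  obtain ⟨x, hx⟩ : ∃ x : ℝ, x = 1 / ε := ⟨_, rfl⟩
  have hx1 : 1 ≤ x := by
    rw [hx, le_div_iff₀ hε]
    linarith
  have hx0 : 0 < x := by linarith
  have hεx : ε = 1 / x := by rw [hx, one_div_one_div]
  have hε'0 : 0 < ε' := by rw [hε']; positivity
  have hα0 : 0 < α := by rw [hα]; exact Real.exp_pos _
  have hτ0 : 0 < τ := by rw [hτ]; positivity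
  have hβ0 : 0 < β := by rw [hβ]; positivity
  obtain ⟨A, hA⟩ : ∃ A : ℝ, A = Real.exp (288 * x) := ⟨_, rfl⟩
  obtain ⟨B, hB⟩ : ∃ B : ℝ, B = Real.exp (432 * x) := ⟨_, rfl⟩
  have hA0 : 0 < A := by rw [hA]; exact Real.exp_pos _
  have hB432 : 432 * x + 1 ≤ B := by rw [hB]; exact Real.add_one_le_exp _
  have hB0 : 0 < B := by linarith
  have hαA : α = A⁻¹ := by
    rw [hα, hA, Real.exp_neg, hε', hεx]
    congr 2
    field_simp
    norm_num
  have hτA : τ = (4 * A)⁻¹ := by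
    rw [hτ, hαA, mul_inv]
    ring
  have hρA : ρ = 72 * x * A := by
    rw [hρ, hτA, hε', hεx]
    field_simp
    norm_num
  have hρB : 2 * ρ ≤ B := by
    rw [hρA]
    have h1 : 144 * x ≤ Real.exp (144 * x) := by linarith [Real.add_one_le_exp (144 * x)]
    calc 2 * (72 * x * A) = 144 * x * A := by ring
      _ ≤ Real.exp (144 * x) * A := mul_le_mul_of_nonneg_right h1 hA0.le
      _ = B := by rw [hA, hB, ← Real.exp_add]; congr 1; ring
  have hβi : β⁻¹ ≤ 2 * Real.exp B := by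
    rw [hβ, inv_div, Real.exp_neg, div_inv_eq_mul]
    exact mul_le_mul_of_nonneg_left (Real.exp_le_exp.2 hρB) (by norm_num)
  have hβi0 : 0 < β⁻¹ := inv_pos.2 hβ0
  have e3 : (16 : ℝ) ≤ Real.exp 3 := by
    have h := Real.exp_one_gt_d9
    have h2 : Real.exp 3 = Real.exp 1 ^ 3 := by rw [← Real.exp_nat_mul]; norm_num
    rw [h2]
    calc (16 : ℝ) ≤ 2.7 ^ 3 := by norm_num
      _ ≤ Real.exp 1 ^ 3 := by gcongr; linarith
  have e4 : (32 : ℝ) ≤ Real.exp 4 := by
    have h := Real.exp_one_gt_d9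
    have h2 : Real.exp 4 = Real.exp 1 ^ 4 := by rw [← Real.exp_nat_mul]; norm_num
    rw [h2]
    calc (32 : ℝ) ≤ 2.7 ^ 4 := by norm_num
      _ ≤ Real.exp 1 ^ 4 := by gcongr; linarith
  have e12 : (62208 : ℝ) ≤ Real.exp 12 := by
    have h := Real.exp_one_gt_d9
    have h2 : Real.exp 12 = Real.exp 1 ^ 12 := by rw [← Real.exp_nat_mul]; norm_num
    rw [h2]
    calc (62208 : ℝ) ≤ 2.7 ^ 12 := by norm_num
      _ ≤ Real.exp 1 ^ 12 := by gcongr; linarith
  have hR0 : 0 ≤ R := by rw [hR, hK2]; positivity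
  have hRB : R ≤ Real.exp (2 * B) := by
    have h1 : R = 1728 * x * (1 + 17 * x) * A * β⁻¹ := by
      rw [hR, hK2, hτA, hε', hεx]
      field_simp
      norm_num
    have h2 : (1 : ℝ) + 17 * x ≤ 18 * x := by linarith
    have h3 : x ≤ Real.exp x := by linarith [Real.add_one_le_exp x]
    have h4 : x ^ 2 ≤ Real.exp (2 * x) := by
      have : Real.exp (2 * x) = Real.exp x ^ 2 := by rw [← Real.exp_nat_mul]; norm_num
      rw [this]
      gcongr
    have h5 : 1728 * x * (1 + 17 * x) * A * β⁻¹ ≤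
        1728 * x * (18 * x) * A * (2 * Real.exp B) := by gcongr
    have h6 : 62208 * x ^ 2 * A ≤ Real.exp B := by
      calc 62208 * x ^ 2 * A ≤ Real.exp 12 * Real.exp (2 * x) * Real.exp (288 * x) := by
            rw [hA]; gcongr
        _ = Real.exp (12 + 2 * x + 288 * x) := by rw [← Real.exp_add, ← Real.exp_add]
        _ ≤ Real.exp B := Real.exp_le_exp.2 (by linarith)
    rw [h1]
    refine h5.trans ?_
    calc 1728 * x * (18 * x) * A * (2 * Real.exp B) = 62208 * x ^ 2 * A * Real.exp B := by ring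
      _ ≤ Real.exp B * Real.exp B := mul_le_mul_of_nonneg_right h6 (Real.exp_pos _).le
      _ = Real.exp (2 * B) := by rw [← Real.exp_add]; congr 1; ring
  have hR2 : R ^ 2 ≤ Real.exp (4 * B) := by
    have : Real.exp (4 * B) = Real.exp (2 * B) ^ 2 := by
      rw [← Real.exp_nat_mul]; congr 1; push_cast; ring
    rw [this]
    gcongr
  have hlam : (lam0 : ℝ) ≤ Real.exp (4 * B) + 2 := by
    rw [hl0]
    push_cast
    have := Nat.ceil_lt_add_one (show (0 : ℝ) ≤ R ^ 2 by positivity)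
    linarith
  have hl1 : R ^ 2 ≤ (lam0 : ℝ) := by
    rw [hl0]; push_cast
    linarith [Nat.le_ceil (R ^ 2)]
  have hlam0 : (0 : ℝ) ≤ lam0 := Nat.cast_nonneg _
  have h5B : Real.exp (5 * B) ≤ Real.exp (Real.exp (434 / ε)) := by
    apply Real.exp_le_exp.2
    have h1 : 434 / ε = 2 * x + 432 * x := by rw [hx]; ring
    rw [h1, Real.exp_add, ← hB]
    have h2 : (5 : ℝ) ≤ Real.exp (2 * x) := by
      have h := Real.exp_one_gt_d9
      have h3 : Real.exp 2 = Real.exp 1 ^ 2 := by rw [← Real.exp_nat_mul]; norm_num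
      calc (5 : ℝ) ≤ 2.7 ^ 2 := by norm_num
        _ ≤ Real.exp 1 ^ 2 := by gcongr; linarith
        _ = Real.exp 2 := h3.symm
        _ ≤ Real.exp (2 * x) := Real.exp_le_exp.2 (by linarith)
    exact mul_le_mul_of_nonneg_right h2 hB0.le
  have c1 : (32 : ℝ) ≤ Real.exp (Real.exp (434 / ε)) :=
    e4.trans ((Real.exp_le_exp.2 (by linarith)).trans h5B)
  have c2 : ε * (1 + lam0) ≤ Real.exp (Real.exp (434 / ε)) := by
    have h1 : ε * (1 + (lam0 : ℝ)) ≤ 1 * (1 + lam0) :=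
      mul_le_mul_of_nonneg_right hε1 (by positivity)
    have h2 : (4 : ℝ) ≤ Real.exp B := by
      refine le_trans ?_ (Real.exp_le_exp.2 (show (3 : ℝ) ≤ B by linarith))
      linarith
    have h3 : Real.exp (5 * B) = Real.exp (4 * B) * Real.exp B := by
      rw [← Real.exp_add]; congr 1; ring
    have h4 : (1 : ℝ) ≤ Real.exp (4 * B) := Real.one_le_exp (by linarith)
    have h6 : Real.exp (4 * B) * 4 ≤ Real.exp (4 * B) * Real.exp B :=
      mul_le_mul_of_nonneg_left h2 (by positivity)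
    linarith
  have c3 : 16 / α ≤ Real.exp (Real.exp (434 / ε)) := by
    refine le_trans ?_ h5B
    rw [hαA, div_inv_eq_mul]
    calc 16 * A ≤ Real.exp 3 * Real.exp (288 * x) := by rw [hA]; gcongr
      _ = Real.exp (3 + 288 * x) := by rw [← Real.exp_add]
      _ ≤ Real.exp (5 * B) := Real.exp_le_exp.2 (by linarith)
  have c4 : 4 / (β * τ) ≤ Real.exp (Real.exp (434 / ε)) := by
    refine le_trans ?_ h5B
    have h1 : 4 / (β * τ) = 16 * A * β⁻¹ := by
      rw [hτA]
      field_simp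
      norm_num
    rw [h1]
    calc 16 * A * β⁻¹ ≤ 16 * A * (2 * Real.exp B) := by gcongr
      _ = 32 * A * Real.exp B := by ring
      _ ≤ Real.exp 4 * Real.exp (288 * x) * Real.exp B := by rw [hA]; gcongr
      _ = Real.exp (4 + 288 * x + B) := by rw [← Real.exp_add, ← Real.exp_add]
      _ ≤ Real.exp (5 * B) := Real.exp_le_exp.2 (by linarith)
  obtain ⟨I, hI⟩ := SimpleGraph.maximumIndepSet_exists (G := H)
  by_cases hIW : I.card < Fintype.card W
  · exact main_step ε hε ε' α τ ρ β K2 lam0 hε' hα hτ hρ hβ hK2 (by rw [← hR]; exact hl1)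
      (by omega) (Real.exp (Real.exp (434 / ε))) c1 c2 c3 c4 H G hH hm hk I hI hIW
  · push Not at hIW
    have h1 : Fintype.card W ≤ Fintype.card I := by rwa [Fintype.card_coe]
    obtain ⟨g⟩ := Function.Embedding.nonempty_of_card_le h1
    refine ⟨fun v => (g v).1, fun a b hab => g.injective (Subtype.ext hab), ?_⟩
    intro u v _ hadj
    exact hI.isIndepSet (g u).2 (g v).2 hadj.ne hadj

/-- `R(3,G) ≤ K (k + m / log log (16 + m / k))`. -/
theorem rate : ∃ K : ℝ, 0 < K ∧ ∀ (V W : Type) [Fintype V] [Fintype W] (H : SimpleGraph V)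
    (G : SimpleGraph W), H.CliqueFree 3 →
    K * ((Fintype.card W : ℝ) + (G.edgeSet.ncard : ℝ) /
      Real.log (Real.log (16 + (G.edgeSet.ncard : ℝ) / (Fintype.card W : ℝ)))) ≤
        (Fintype.card V : ℝ) →
    ∃ f : W → V, Function.Injective f ∧ ∀ u v, G.Adj u v → ¬ H.Adj (f u) (f v) := by
  obtain ⟨K, hK⟩ : ∃ K : ℝ, K = Real.exp (Real.exp (434 / 1)) + 868 := ⟨_, rfl⟩
  have hK868 : 868 ≤ K := by rw [hK]; linarith [Real.exp_pos (Real.exp (434 / 1))]
  have hKe : Real.exp (Real.exp (434 / 1)) ≤ K := by rw [hK]; linarith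
  refine ⟨K, by linarith, ?_⟩
  intro V W _ _ H G hH hn
  rcases isEmpty_or_nonempty W with hW | hW
  · exact ⟨fun w => isEmptyElim w, fun a => isEmptyElim a, fun u => isEmptyElim u⟩
  obtain ⟨n, hnn⟩ : ∃ n : ℝ, n = (Fintype.card V : ℝ) := ⟨_, rfl⟩
  obtain ⟨k, hkk⟩ : ∃ k : ℝ, k = (Fintype.card W : ℝ) := ⟨_, rfl⟩
  obtain ⟨m, hmm⟩ : ∃ m : ℝ, m = (G.edgeSet.ncard : ℝ) := ⟨_, rfl⟩
  have hk0 : 0 < k := by rw [hkk]; exact_mod_cast Fintype.card_pos
  have hm0 : 0 ≤ m := by rw [hmm]; exact Nat.cast_nonneg _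
  rw [← hmm, ← hkk, ← hnn] at hn
  obtain ⟨u, hu⟩ : ∃ u : ℝ, u = 16 + m / k := ⟨_, rfl⟩
  have hu16 : 16 ≤ u := by
    rw [hu]
    have : 0 ≤ m / k := by positivity
    linarith
  rw [← hu] at hn
  have hlu : 1 < Real.log u := by
    rw [Real.lt_log_iff_exp_lt (by linarith)]
    linarith [Real.exp_one_lt_d9]
  obtain ⟨t, ht⟩ : ∃ t : ℝ, t = Real.log (Real.log u) := ⟨_, rfl⟩
  rw [← ht] at hn
  have ht0 : 0 < t := by rw [ht]; exact Real.log_pos hlu
  have het : Real.exp (Real.exp t) = u := by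
    rw [ht, Real.exp_log (by linarith), Real.exp_log (by linarith)]
  have hmt : 0 ≤ m / t := by positivity
  have hn1 : K * k ≤ n := by
    have : 0 ≤ K * (m / t) := by positivity
    linarith
  have hn2 : K * (m / t) ≤ n := by
    have : 0 ≤ K * k := by positivity
    linarith
  have hn3 : 868 * (m / t) ≤ n := (mul_le_mul_of_nonneg_right hK868 hmt).trans hn2
  by_cases hc : t ≤ 868
  · refine ramsey_exp 1 one_pos le_rfl V W H G hH ?_ ?_
    · rw [← hmm, ← hnn, one_mul]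
      refine le_trans ?_ hn3
      rw [mul_div_assoc', le_div_iff₀ ht0]
      nlinarith
    · rw [← hkk, ← hnn]
      exact (mul_le_mul_of_nonneg_right hKe hk0.le).trans hn1
  · push Not at hc
    refine ramsey_exp (868 / t) (by positivity) ?_ V W H G hH ?_ ?_
    · rw [div_le_one ht0]
      exact hc.le
    · rw [← hmm, ← hnn]
      calc 868 / t * m = 868 * (m / t) := by ring
        _ ≤ n := hn3
    · rw [← hkk, ← hnn]
      obtain ⟨y, hy⟩ : ∃ y : ℝ, y = Real.exp (t / 2) := ⟨_, rfl⟩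
      have e1 : (434 : ℝ) / (868 / t) = t / 2 := by
        field_simp
        norm_num
      rw [e1, ← hy]
      have hy1 : t / 2 + 1 ≤ y := by rw [hy]; exact Real.add_one_le_exp _
      have hy2 : Real.exp t = y ^ 2 := by
        rw [hy, ← Real.exp_nat_mul]; congr 1; push_cast; ring
      have hy0 : 0 < y := by linarith
      have hm1 : m = k * (u - 16) := by
        rw [hu]
        field_simp
        ring
      have hu32 : 32 ≤ u := by
        rw [← het]
        have h1 : t + 1 ≤ Real.exp t := Real.add_one_le_exp t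
        have h2 : Real.exp t + 1 ≤ Real.exp (Real.exp t) := Real.add_one_le_exp _
        linarith
      have hm2 : k * u ≤ 2 * m := by
        rw [hm1]
        nlinarith
      have h1 : Real.exp y * y ≤ u := by
        rw [← het, hy2]
        have h2 : y ≤ Real.exp y := by linarith [Real.add_one_le_exp y]
        calc Real.exp y * y ≤ Real.exp y * Real.exp y :=
              mul_le_mul_of_nonneg_left h2 (Real.exp_pos _).le
          _ = Real.exp (y + y) := (Real.exp_add _ _).symm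
          _ ≤ Real.exp (y ^ 2) := Real.exp_le_exp.2 (by nlinarith)
      refine le_trans ?_ hn3
      rw [mul_div_assoc', le_div_iff₀ ht0]
      have h3 : Real.exp y * k * t ≤ Real.exp y * k * (2 * y) :=
        mul_le_mul_of_nonneg_left (by linarith) (by positivity)
      have h4 : k * (Real.exp y * y) ≤ k * u := mul_le_mul_of_nonneg_left h1 hk0.le
      nlinarith

end Pool.Agent.Sid84
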