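import Mathlib

set_option autoImplicit false

/-!
# Elementary facts on triangle-free graphs used in the assembly
-/

namespace Pool.Agent.Sid84

open Finset

open scoped Classical

set_option linter.unusedSectionVars false

variable {V W : Type*} [Fintype V] [Fintype W]

/-- the sum of all degrees -/
theorem sum_deg (G : SimpleGraph W) :
    ∑ v : W, (univ.filter (G.Adj v)).card = 2 * G.edgeSet.ncard := by
  have h1 := G.sum_degrees_eq_twice_card_edges
  have h2 : G.edgeSet.ncard = G.edgeFinset.card := by
    rw [← SimpleGraph.coe_edgeFinset, Set.ncard_coe_finset]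
  rw [h2, ← h1]
  refine sum_congr rfl fun v _ => ?_
  rw [← SimpleGraph.card_neighborFinset_eq_degree, SimpleGraph.neighborFinset_eq_filter]

/-- a maximal independent set and its neighbours cover the graph -/
theorem card_le_indep (H : SimpleGraph V) (I : Finset V) (s : ℕ)
    (hI : H.IsMaximumIndepSet I) (hs : I.card = s)
    (hdeg : ∀ z, (univ.filter (H.Adj z)).card ≤ s) :
    Fintype.card V ≤ s * (s + 1) := by
  have h1 : (univ : Finset V) ⊆ I.biUnion (fun z => insert z (univ.filter (H.Adj z))) := by
    intro y _
    by_contra hy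
    rw [mem_biUnion] at hy
    push Not at hy
    have hyI : y ∉ I := fun h => by
      have := hy y h
      simp at this
    have hind : H.IsIndepSet ((insert y I : Finset V) : Set V) := by
      intro a ha b hb hab hadj
      rw [mem_coe, mem_insert] at ha hb
      rcases ha with rfl | ha
      · rcases hb with rfl | hb
        · exact hab rfl
        · have := hy b hb
          simp only [mem_insert, mem_filter, mem_univ, true_and, not_or] at this
          exact this.2 hadj.symm
      · rcases hb with rfl | hb
        · have := hy a ha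
          simp only [mem_insert, mem_filter, mem_univ, true_and, not_or] at this
          exact this.2 hadj
        · exact hI.isIndepSet ha hb hab hadj
    have h2 := hI.maximum _ hind
    rw [card_insert_of_notMem hyI] at h2
    omega
  have h2 := card_le_card h1
  rw [card_univ] at h2
  refine h2.trans (card_biUnion_le.trans ?_)
  calc ∑ z ∈ I, (insert z (univ.filter (H.Adj z))).card ≤ ∑ z ∈ I, (s + 1) := by
        refine sum_le_sum fun z _ => (card_insert_le _ _).trans ?_
        have := hdeg z
        omega
    _ = s * (s + 1) := by rw [sum_const, smul_eq_mul, hs]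

/-- neighbourhoods are independent, so all degrees are at most the independence number -/
theorem deg_le (H : SimpleGraph V) (hH : H.CliqueFree 3) (I : Finset V)
    (hI : H.IsMaximumIndepSet I) (z : V) : (univ.filter (H.Adj z)).card ≤ I.card := by
  refine hI.maximum _ ?_
  have h := SimpleGraph.isIndepSet_neighborSet_of_triangleFree H hH z
  intro a ha b hb hab
  rw [coe_filter] at ha hb
  exact h ha.2 hb.2 hab

/-- at least half of the vertices lie outside `I` and have few neighbours in `I` -/
theorem half_le (H : SimpleGraph V) (I : Finset V) (s n : ℕ) (hn : Fintype.card V = n)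
    (hs0 : 0 < s) (hs : I.card = s) (h4 : 4 * s ≤ n)
    (hdeg : ∀ z ∈ I, (univ.filter (H.Adj z)).card ≤ s) :
    (n : ℝ) / 2 ≤ ((univ.filter (fun y => y ∉ I ∧
      ((I.filter (fun z => H.Adj z y)).card : ℝ) ≤ 4 * (s : ℝ) ^ 2 / n)).card : ℝ) := by
  set Y := univ.filter (fun y => y ∉ I ∧
      ((I.filter (fun z => H.Adj z y)).card : ℝ) ≤ 4 * (s : ℝ) ^ 2 / n) with hY
  set X := univ.filter (fun y => 4 * (s : ℝ) ^ 2 / n < ((I.filter (fun z => H.Adj z y)).card : ℝ))
    with hX
  have hn0 : (0 : ℝ) < n := by
    have : 0 < n := by omega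
    exact_mod_cast this
  have hs0' : (0 : ℝ) < s := by exact_mod_cast hs0
  have hcov : (univ : Finset V) ⊆ I ∪ (X ∪ Y) := by
    intro y _
    by_cases h1 : y ∈ I
    · exact mem_union_left _ h1
    · refine mem_union_right _ ?_
      by_cases h2 : ((I.filter (fun z => H.Adj z y)).card : ℝ) ≤ 4 * (s : ℝ) ^ 2 / n
      · exact mem_union_right _ (by rw [hY, mem_filter]; exact ⟨mem_univ _, h1, h2⟩)
      · exact mem_union_left _ (by rw [hX, mem_filter]; exact ⟨mem_univ _, not_le.1 h2⟩)
  have h1 : (n : ℝ) ≤ s + (X.card + Y.card) := by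
    have h2 := card_le_card hcov
    rw [card_univ, hn] at h2
    have h3 := card_union_le I (X ∪ Y)
    have h5 := card_union_le X Y
    have : n ≤ s + (X.card + Y.card) := by omega
    exact_mod_cast this
  have h2 : ∑ y : V, ((I.filter (fun z => H.Adj z y)).card : ℝ) ≤ (s : ℝ) * s := by
    have h3 : ∑ y : V, (I.filter (fun z => H.Adj z y)).card
        = ∑ z ∈ I, (univ.filter (H.Adj z)).card := by
      simp only [card_filter]
      rw [sum_comm]
    have h5 : ∑ z ∈ I, (univ.filter (H.Adj z)).card ≤ s * s := by
      refine (sum_le_sum hdeg).trans ?_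
      rw [sum_const, smul_eq_mul, hs]
    have h6 : ∑ y : V, (I.filter (fun z => H.Adj z y)).card ≤ s * s := h3 ▸ h5
    exact_mod_cast h6
  have h3 : (X.card : ℝ) * (4 * (s : ℝ) ^ 2 / n) ≤ (s : ℝ) * s := by
    refine le_trans ?_ h2
    calc (X.card : ℝ) * (4 * (s : ℝ) ^ 2 / n) = ∑ _y ∈ X, (4 * (s : ℝ) ^ 2 / n) := by
          rw [sum_const, nsmul_eq_mul]
      _ ≤ ∑ y ∈ X, ((I.filter (fun z => H.Adj z y)).card : ℝ) := by
          refine sum_le_sum fun y hy => ?_
          rw [hX, mem_filter] at hy
          exact hy.2.le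
      _ ≤ ∑ y : V, ((I.filter (fun z => H.Adj z y)).card : ℝ) :=
          sum_le_sum_of_subset_of_nonneg (subset_univ _) (fun _ _ _ => by positivity)
  have h5 : (X.card : ℝ) ≤ n / 4 := by
    have h6 : (X.card : ℝ) * (4 * (s : ℝ) ^ 2 / n) = (X.card : ℝ) * (4 / n) * ((s : ℝ) * s) := by
      ring
    rw [h6] at h3
    have h7 : (X.card : ℝ) * (4 / n) ≤ 1 := by
      by_contra hcon
      have := mul_lt_mul_of_pos_right (not_le.1 hcon) (mul_pos hs0' hs0')
      linarith
    have h8 : (X.card : ℝ) * (4 / n) = (X.card : ℝ) / (n / 4) := by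
      field_simp
    rw [h8, div_le_one (by positivity)] at h7
    exact h7
  have h6 : 4 * (s : ℝ) ≤ n := by exact_mod_cast h4
  linarith

/-- few vertices have large degree -/
theorem heavy_le (G : SimpleGraph W) (s lam : ℕ) (hlam : 0 < lam)
    (h : 8 * G.edgeSet.ncard ≤ lam * s) :
    4 * (univ.filter (fun v => lam < (univ.filter (G.Adj v)).card)).card ≤ s := by
  set B := univ.filter (fun v => lam < (univ.filter (G.Adj v)).card) with hB
  have h1 : B.card * lam ≤ 2 * G.edgeSet.ncard := by
    rw [← sum_deg]
    calc B.card * lam = ∑ _v ∈ B, lam := by rw [sum_const, smul_eq_mul]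
      _ ≤ ∑ v ∈ B, (univ.filter (G.Adj v)).card := by
          refine sum_le_sum fun v hv => ?_
          rw [hB, mem_filter] at hv
          exact hv.2.le
      _ ≤ ∑ v : W, (univ.filter (G.Adj v)).card :=
          sum_le_sum_of_subset_of_nonneg (subset_univ _) (fun _ _ _ => Nat.zero_le _)
  by_contra hcon
  have h2 : s + 1 ≤ 4 * B.card := by omega
  have h3 : (s + 1) * lam ≤ 4 * B.card * lam := Nat.mul_le_mul_right _ h2
  nlinarith

end Pool.Agent.Sid84
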