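import Mathlib

set_option autoImplicit false

/-!
# Placing the vertices of large degree

`heavy`: let `H` be a graph on `n` vertices, `I` a set of `s` vertices (all of degree at most `s`),
and `G` a graph of which at most `s/4` vertices have degree more than `lam`.  If `n` is large
compared with `lam * s` and with `|G|`, one can find a set `Z` of vertices of `G` containing all
vertices of degree more than `lam` and an injection `ψ` of `Z` into `I` such that for every
`v ∉ Z` a positive proportion of all vertices of `H` lie outside `I` and are not adjacent to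
`ψ (u)` for any neighbour `u ∈ Z` of `v`.
-/

namespace Pool.Agent.Sid84

open Finset

open scoped Classical

set_option linter.unusedSectionVars false

variable {V W : Type*} [Fintype V] [Fintype W]

/-- the positions in `Y` which are not adjacent to the image of a neighbour of `v` in `Z` -/
noncomputable def Sv (H : SimpleGraph V) (G : SimpleGraph W) (Y : Finset V) (Z : Finset W)
    (ψ : W → V) (v : W) : Finset V :=
  Y.filter (fun y => ∀ u ∈ Z, G.Adj v u → ¬ H.Adj (ψ u) y)

/-- the number of neighbours of `v` in `Z` -/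
noncomputable def jc (G : SimpleGraph W) (Z : Finset W) (v : W) : ℕ := (Z.filter (G.Adj v)).card

/-- the potential of `v` -/
noncomputable def Fv (H : SimpleGraph V) (G : SimpleGraph W) (Y : Finset V) (a t : ℝ)
    (s lam : ℕ) (Z : Finset W) (ψ : W → V) (v : W) : ℝ :=
  Real.exp ((t - Real.exp (-(a * ((lam : ℝ) - jc G Z v))) * ((Sv H G Y Z ψ v).card : ℝ)) / s)

theorem Sv_insert (H : SimpleGraph V) (G : SimpleGraph W) (Y : Finset V) (Z : Finset W)
    (ψ : W → V) (v u : W) (hu : u ∉ Z) (z : V) (h : G.Adj v u) :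
    Sv H G Y (insert u Z) (Function.update ψ u z) v
      = (Sv H G Y Z ψ v).filter (fun y => ¬ H.Adj z y) := by
  ext y
  simp only [Sv, mem_filter, mem_insert]
  constructor
  · rintro ⟨hy, h1⟩
    refine ⟨⟨hy, fun w hw hvw => ?_⟩, ?_⟩
    · have h2 := h1 w (Or.inr hw) hvw
      rwa [Function.update_of_ne (by rintro rfl; exact hu hw)] at h2
    · have h2 := h1 u (Or.inl rfl) h
      rwa [Function.update_self] at h2
  · rintro ⟨⟨hy, h1⟩, h2⟩
    refine ⟨hy, fun w hw hvw => ?_⟩
    rcases hw with rfl | hw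
    · rwa [Function.update_self]
    · rw [Function.update_of_ne (by rintro rfl; exact hu hw)]
      exact h1 w hw hvw

theorem Sv_insert' (H : SimpleGraph V) (G : SimpleGraph W) (Y : Finset V) (Z : Finset W)
    (ψ : W → V) (v u : W) (hu : u ∉ Z) (z : V) (h : ¬ G.Adj v u) :
    Sv H G Y (insert u Z) (Function.update ψ u z) v = Sv H G Y Z ψ v := by
  ext y
  simp only [Sv, mem_filter, mem_insert]
  constructor
  · rintro ⟨hy, h1⟩
    refine ⟨hy, fun w hw hvw => ?_⟩
    have h2 := h1 w (Or.inr hw) hvw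
    rwa [Function.update_of_ne (by rintro rfl; exact hu hw)] at h2
  · rintro ⟨hy, h1⟩
    refine ⟨hy, fun w hw hvw => ?_⟩
    rcases hw with rfl | hw
    · exact absurd hvw h
    · rw [Function.update_of_ne (by rintro rfl; exact hu hw)]
      exact h1 w hw hvw

theorem jc_insert (G : SimpleGraph W) (Z : Finset W) (v u : W) (hu : u ∉ Z) (h : G.Adj v u) :
    jc G (insert u Z) v = jc G Z v + 1 := by
  unfold jc
  rw [filter_insert, if_pos h, card_insert_of_notMem]
  simp [hu]

theorem jc_insert' (G : SimpleGraph W) (Z : Finset W) (v u : W) (h : ¬ G.Adj v u) :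
    jc G (insert u Z) v = jc G Z v := by
  unfold jc
  rw [filter_insert, if_neg h]

theorem exp_neg_le_half {x : ℝ} (h0 : 0 ≤ x) (h1 : x ≤ 1) : Real.exp (-x) ≤ 1 - x / 2 := by
  have h2 : 1 + x ≤ Real.exp x := by linarith [Real.add_one_le_exp x]
  rw [Real.exp_neg]
  have h3 : (Real.exp x)⁻¹ ≤ (1 + x)⁻¹ := inv_anti₀ (by linarith) h2
  refine h3.trans ?_
  rw [inv_le_iff_one_le_mul₀ (by linarith)]
  nlinarith

theorem Fv_step (H : SimpleGraph V) (G : SimpleGraph W) (Y I : Finset V) (n s lam : ℕ)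
    (hs : 0 < s) (hn : 32 * s ≤ n)
    (hdeg : ∀ z ∈ I, (univ.filter (H.Adj z)).card ≤ s)
    (hY : ∀ y ∈ Y, ((I.filter (fun z => H.Adj z y)).card : ℝ) ≤ 4 * (s : ℝ) ^ 2 / n)
    (t : ℝ) (Z : Finset W) (ψ : W → V) (v u : W) (hu : u ∉ Z) (hvu : G.Adj v u)
    (hj : jc G Z v + 1 ≤ lam)
    (F : Finset V) (hFI : F ⊆ I) (hF : s ≤ 2 * F.card) :
    ∑ z ∈ F, Fv H G Y (32 * s / n) t s lam (insert u Z) (Function.update ψ u z) v
      ≤ F.card * Fv H G Y (32 * s / n) t s lam Z ψ v := by
  have hn0 : (0 : ℝ) < n := by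
    have : 0 < n := by omega
    exact_mod_cast this
  have hs0 : (0 : ℝ) < s := by exact_mod_cast hs
  have hnR : 32 * (s : ℝ) ≤ n := by exact_mod_cast hn
  set a : ℝ := 32 * s / n with ha
  have ha0 : 0 ≤ a := by positivity
  have ha1 : a ≤ 1 := by
    rw [ha, div_le_one hn0]; exact hnR
  set S : Finset V := Sv H G Y Z ψ v with hS
  set j : ℕ := jc G Z v with hjdef
  set α' : ℝ := Real.exp (-(a * ((lam : ℝ) - (j + 1 : ℕ)))) with hα'
  have hα'0 : 0 < α' := Real.exp_pos _
  have hα'1 : α' ≤ 1 := by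
    rw [hα', Real.exp_le_one_iff]
    have : ((j + 1 : ℕ) : ℝ) ≤ lam := by exact_mod_cast hj
    have := mul_nonneg ha0 (sub_nonneg.2 this)
    linarith
  have hα : Real.exp (-(a * ((lam : ℝ) - j))) = α' * Real.exp (-a) := by
    rw [hα', ← Real.exp_add]
    congr 1
    push_cast
    ring
  -- the drop
  set d : V → ℕ := fun z => (S.filter (fun y => H.Adj z y)).card with hd
  have hcard : ∀ z, ((S.filter (fun y => ¬ H.Adj z y)).card : ℝ) = S.card - d z := by
    intro z
    have h1 := card_filter_add_card_filter_not (s := S) (fun y => H.Adj z y)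
    have h2 : ((S.filter (fun y => H.Adj z y)).card : ℝ)
        + (S.filter (fun y => ¬ H.Adj z y)).card = S.card := by exact_mod_cast h1
    simp only [hd]
    linarith
  have hFv : ∀ z ∈ F, Fv H G Y a t s lam (insert u Z) (Function.update ψ u z) v
      = Real.exp ((t - α' * S.card) / s) * Real.exp (α' * d z / s) := by
    intro z _
    rw [Fv, Sv_insert H G Y Z ψ v u hu z hvu, jc_insert G Z v u hu hvu, hcard z, ← Real.exp_add]
    congr 1
    rw [← hα']
    ring
  have hdz : ∀ z ∈ F, d z ≤ s := by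
    intro z hz
    refine le_trans (card_le_card ?_) (hdeg z (hFI hz))
    intro y hy
    simp only [mem_filter, mem_univ, true_and] at hy ⊢
    exact hy.2
  have hexp : ∀ z ∈ F, Real.exp (α' * d z / s) ≤ 1 + 2 * (α' * d z / s) := by
    intro z hz
    have h1 : (d z : ℝ) ≤ s := by exact_mod_cast hdz z hz
    have h0 : 0 ≤ α' * d z / s := by positivity
    have h2 : α' * d z / s ≤ 1 := by
      rw [div_le_one hs0]
      calc α' * d z ≤ 1 * s := mul_le_mul hα'1 h1 (by positivity) (by norm_num)
        _ = s := one_mul _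
    have h3 := Real.abs_exp_sub_one_le (x := α' * d z / s) (by rwa [abs_of_nonneg h0])
    rw [abs_of_nonneg h0] at h3
    have h4 := le_abs_self (Real.exp (α' * d z / s) - 1)
    linarith
  have hsumd : (∑ z ∈ F, (d z : ℝ)) ≤ 4 * (s : ℝ) ^ 2 / n * S.card := by
    have h1 : ∑ z ∈ F, d z = ∑ y ∈ S, (F.filter (fun z => H.Adj z y)).card := by
      simp only [hd, card_filter]
      rw [sum_comm]
    have h2 : (∑ z ∈ F, (d z : ℝ)) = ∑ y ∈ S, ((F.filter (fun z => H.Adj z y)).card : ℝ) := by
      exact_mod_cast h1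
    rw [h2]
    have h3 : ∀ y ∈ S, ((F.filter (fun z => H.Adj z y)).card : ℝ) ≤ 4 * (s : ℝ) ^ 2 / n := by
      intro y hy
      refine le_trans ?_ (hY y (mem_of_mem_filter y hy))
      exact_mod_cast card_le_card (filter_subset_filter _ hFI)
    refine (sum_le_sum h3).trans ?_
    rw [sum_const, nsmul_eq_mul, mul_comm]
  have hFc : (s : ℝ) ≤ 2 * F.card := by exact_mod_cast hF
  have hF0 : (0 : ℝ) < F.card := by linarith
  rw [sum_congr rfl hFv, ← mul_sum]
  have hmain : ∑ z ∈ F, Real.exp (α' * d z / s) ≤ F.card * (1 + 16 * α' * S.card / n) := by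
    refine (sum_le_sum hexp).trans ?_
    rw [sum_add_distrib, sum_const, nsmul_eq_mul, mul_one, mul_add, mul_one]
    refine add_le_add le_rfl ?_
    have h1 : ∑ z ∈ F, 2 * (α' * (d z : ℝ) / s) = 2 * α' / s * ∑ z ∈ F, (d z : ℝ) := by
      rw [mul_sum]
      refine sum_congr rfl fun z _ => ?_
      ring
    rw [h1]
    have h2 : 2 * α' / s * ∑ z ∈ F, (d z : ℝ) ≤ 2 * α' / s * (4 * (s : ℝ) ^ 2 / n * S.card) :=
      mul_le_mul_of_nonneg_left hsumd (by positivity)
    refine h2.trans ?_
    have h3 : 2 * α' / s * (4 * (s : ℝ) ^ 2 / n * S.card) = s * (8 * α' * S.card / n) := by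
      field_simp
      ring
    rw [h3]
    have h4 : (0:ℝ) ≤ 8 * α' * S.card / n := by positivity
    calc (s : ℝ) * (8 * α' * S.card / n) ≤ (2 * F.card) * (8 * α' * S.card / n) :=
          mul_le_mul_of_nonneg_right hFc h4
      _ = F.card * (16 * α' * S.card / n) := by ring
  have hpos : 0 < Real.exp ((t - α' * S.card) / s) := Real.exp_pos _
  refine (mul_le_mul_of_nonneg_left hmain hpos.le).trans ?_
  rw [Fv, ← hS, ← hjdef, hα]
  have h5 : 1 + 16 * α' * S.card / n ≤ Real.exp (16 * α' * S.card / n) := by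
    linarith [Real.add_one_le_exp (16 * α' * S.card / n)]
  have h6 : Real.exp ((t - α' * S.card) / s) * (F.card * (1 + 16 * α' * S.card / n))
      ≤ F.card * Real.exp ((t - α' * S.card) / s + 16 * α' * S.card / n) := by
    rw [Real.exp_add]
    have : Real.exp ((t - α' * S.card) / s) * (F.card * (1 + 16 * α' * S.card / n))
      = F.card * (Real.exp ((t - α' * S.card) / s) * (1 + 16 * α' * S.card / n)) := by ring
    rw [this]
    exact mul_le_mul_of_nonneg_left (mul_le_mul_of_nonneg_left h5 hpos.le) hF0.le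
  refine h6.trans (mul_le_mul_of_nonneg_left (Real.exp_le_exp.2 ?_) hF0.le)
  have h7 := exp_neg_le_half ha0 ha1
  have h8 : 16 * α' * S.card / n = (α' * S.card / s) * (a / 2) := by
    rw [ha]
    field_simp
    ring
  have h9 : (t - α' * S.card) / s + 16 * α' * S.card / n
      = t / s - (α' * S.card / s) * (1 - a / 2) := by
    rw [h8]; ring
  have h10 : (t - α' * Real.exp (-a) * S.card) / s = t / s - (α' * S.card / s) * Real.exp (-a) := by
    ring
  rw [h9, h10]
  have h11 : (α' * S.card / s) * Real.exp (-a) ≤ (α' * S.card / s) * (1 - a / 2) :=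
    mul_le_mul_of_nonneg_left h7 (by positivity)
  linarith

/-- a partial placement of the set `Z` in `I`, with small potential -/
def Valid (H : SimpleGraph V) (G : SimpleGraph W) (Y I : Finset V) (n s lam : ℕ) (t : ℝ)
    (Z : Finset W) (ψ : W → V) : Prop :=
  (∀ u ∈ Z, ψ u ∈ I) ∧ Set.InjOn ψ (Z : Set W) ∧
    4 * (∑ v ∈ (univ.filter (fun v => (univ.filter (G.Adj v)).card ≤ lam)) \ Z,
        Fv H G Y (32 * s / n) t s lam Z ψ v
      + ((Z \ univ.filter (fun v => lam < (univ.filter (G.Adj v)).card)).card : ℝ)) ≤ s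

theorem Fv_pos (H : SimpleGraph V) (G : SimpleGraph W) (Y : Finset V) (a t : ℝ)
    (s lam : ℕ) (Z : Finset W) (ψ : W → V) (v : W) : 0 < Fv H G Y a t s lam Z ψ v :=
  Real.exp_pos _

theorem jc_le (G : SimpleGraph W) (Z : Finset W) (v : W) :
    jc G Z v ≤ (univ.filter (G.Adj v)).card :=
  card_le_card (filter_subset_filter _ (subset_univ _))

theorem extend (H : SimpleGraph V) (G : SimpleGraph W) (Y I : Finset V) (n s lam : ℕ)
    (hs : 0 < s) (hn : 32 * s ≤ n) (hI : I.card = s)
    (hdeg : ∀ z ∈ I, (univ.filter (H.Adj z)).card ≤ s)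
    (hY : ∀ y ∈ Y, ((I.filter (fun z => H.Adj z y)).card : ℝ) ≤ 4 * (s : ℝ) ^ 2 / n)
    (hB : 4 * (univ.filter (fun v => lam < (univ.filter (G.Adj v)).card)).card ≤ s)
    (t : ℝ) (Z : Finset W) (ψ : W → V) (hV : Valid H G Y I n s lam t Z ψ)
    (u : W) (hu : u ∉ Z)
    (hu' : (univ.filter (G.Adj u)).card ≤ lam → 1 ≤ Fv H G Y (32 * s / n) t s lam Z ψ u) :
    ∃ z, Valid H G Y I n s lam t (insert u Z) (Function.update ψ u z) := by
  obtain ⟨h1, h2, h3⟩ := hV
  set B : Finset W := univ.filter (fun v => lam < (univ.filter (G.Adj v)).card) with hBdef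
  set L : Finset W := univ.filter (fun v => (univ.filter (G.Adj v)).card ≤ lam) with hLdef
  set Φ : ℝ := ∑ v ∈ L \ Z, Fv H G Y (32 * s / n) t s lam Z ψ v with hΦ
  have hs0 : (0 : ℝ) < s := by exact_mod_cast hs
  have hΦ0 : 0 ≤ Φ := sum_nonneg fun v _ => (Fv_pos H G Y _ t s lam Z ψ v).le
  have hZ : 2 * Z.card ≤ s := by
    have h4 : Z.card ≤ B.card + (Z \ B).card := by
      calc Z.card ≤ (B ∪ (Z \ B)).card := by
            refine card_le_card ?_
            intro x hx
            by_cases hxB : x ∈ B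
            · exact mem_union_left _ hxB
            · exact mem_union_right _ (mem_sdiff.2 ⟨hx, hxB⟩)
        _ ≤ B.card + (Z \ B).card := card_union_le _ _
    have h5 : (4 : ℝ) * ((Z \ B).card : ℝ) ≤ s := by linarith
    have h6 : 4 * (Z \ B).card ≤ s := by exact_mod_cast h5
    omega
  set F : Finset V := I \ Z.image ψ with hF
  have hFc : s ≤ 2 * F.card := by
    have h4 : I.card - (Z.image ψ).card ≤ F.card := le_card_sdiff _ _
    have h5 : (Z.image ψ).card ≤ Z.card := card_image_le
    omega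
  have hFne : F.Nonempty := by
    rw [← card_pos]; omega
  -- the averaging
  have hav : ∑ z ∈ F, ∑ v ∈ L \ insert u Z,
      Fv H G Y (32 * s / n) t s lam (insert u Z) (Function.update ψ u z) v
      ≤ ∑ z ∈ F, ∑ v ∈ L \ insert u Z, Fv H G Y (32 * s / n) t s lam Z ψ v := by
    rw [sum_comm]
    rw [sum_comm (s := F)]
    refine sum_le_sum fun v hv => ?_
    rw [mem_sdiff, mem_insert, not_or] at hv
    obtain ⟨hvL, hvu, hvZ⟩ := hv
    rw [sum_const, nsmul_eq_mul]
    by_cases hadj : G.Adj v u
    · refine Fv_step H G Y I n s lam hs hn hdeg hY t Z ψ v u hu hadj ?_ F sdiff_subset hFc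
      rw [← jc_insert G Z v u hu hadj]
      refine (jc_le G _ v).trans ?_
      rw [hLdef, mem_filter] at hvL
      exact hvL.2
    · have h4 : ∀ z ∈ F, Fv H G Y (32 * s / n) t s lam (insert u Z) (Function.update ψ u z) v
          = Fv H G Y (32 * s / n) t s lam Z ψ v := by
        intro z _
        rw [Fv, Fv, Sv_insert' H G Y Z ψ v u hu z hadj, jc_insert' G Z v u hadj]
      rw [sum_congr rfl h4, sum_const, nsmul_eq_mul]
  obtain ⟨z, hz, hle⟩ := exists_le_of_sum_le hFne hav
  refine ⟨z, ?_, ?_, ?_⟩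
  · intro w hw
    rw [mem_insert] at hw
    rcases hw with rfl | hw
    · rw [Function.update_self]
      exact (mem_sdiff.1 hz).1
    · rw [Function.update_of_ne (by rintro rfl; exact hu hw)]
      exact h1 w hw
  · have hzn : ∀ w ∈ Z, ψ w ≠ z := by
      intro w hw h
      exact (mem_sdiff.1 hz).2 (mem_image.2 ⟨w, hw, h⟩)
    intro x hx y hy hxy
    rw [mem_coe, mem_insert] at hx hy
    rcases hx with rfl | hx
    · rcases hy with rfl | hy
      · rfl
      · rw [Function.update_self, Function.update_of_ne (by rintro rfl; exact hu hy)] at hxy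
        exact absurd hxy.symm (hzn y hy)
    · rcases hy with rfl | hy
      · rw [Function.update_self, Function.update_of_ne (by rintro rfl; exact hu hx)] at hxy
        exact absurd hxy (hzn x hx)
      · rw [Function.update_of_ne (by rintro rfl; exact hu hx),
          Function.update_of_ne (by rintro rfl; exact hu hy)] at hxy
        exact h2 hx hy hxy
  · rw [← hBdef, ← hLdef]
    by_cases huL : (univ.filter (G.Adj u)).card ≤ lam
    · -- `u` is a light vertex
      have hu1 := hu' huL
      have huL' : u ∈ L := by rw [hLdef, mem_filter]; exact ⟨mem_univ _, huL⟩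
      have huB : u ∉ B := by rw [hBdef, mem_filter]; simp only [mem_univ, true_and]; omega
      have h4 : L \ insert u Z = (L \ Z).erase u := by
        ext x; simp only [mem_sdiff, mem_insert, mem_erase]; tauto
      have h5 : ∑ v ∈ L \ insert u Z, Fv H G Y (32 * s / n) t s lam Z ψ v
          = Φ - Fv H G Y (32 * s / n) t s lam Z ψ u := by
        rw [h4, hΦ, ← sum_erase_add _ _ (mem_sdiff.2 ⟨huL', hu⟩)]
        ring
      have h6 : ((insert u Z \ B).card : ℝ) ≤ (Z \ B).card + 1 := by
        have : insert u Z \ B ⊆ insert u (Z \ B) := by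
          intro x; simp only [mem_sdiff, mem_insert]; tauto
        exact_mod_cast (card_le_card this).trans (card_insert_le _ _)
      rw [h5] at hle
      linarith
    · have huL' : u ∉ L := by rw [hLdef, mem_filter]; simp only [mem_univ, true_and]; exact huL
      have huB : u ∈ B := by
        rw [hBdef, mem_filter]; simp only [mem_univ, true_and]; omega
      have h4 : L \ insert u Z = L \ Z := by
        ext x; simp only [mem_sdiff, mem_insert, not_or]
        constructor
        · rintro ⟨hx, _, hx2⟩; exact ⟨hx, hx2⟩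
        · rintro ⟨hx, hx2⟩; exact ⟨hx, by rintro rfl; exact huL' hx, hx2⟩
      have h5 : ∑ v ∈ L \ insert u Z, Fv H G Y (32 * s / n) t s lam Z ψ v = Φ := by
        rw [h4]
      have h6 : insert u Z \ B = Z \ B := by
        ext x; simp only [mem_sdiff, mem_insert]
        constructor
        · rintro ⟨hx | hx, hx2⟩
          · exact absurd (hx ▸ huB) hx2
          · exact ⟨hx, hx2⟩
        · rintro ⟨hx, hx2⟩; exact ⟨Or.inr hx, hx2⟩
      rw [h5] at hle
      rw [h6]
      linarith

theorem exists_Z (H : SimpleGraph V) (G : SimpleGraph W) (Y I : Finset V) (n s lam : ℕ)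
    (hs : 0 < s) (hn : 32 * s ≤ n) (hI : I.card = s)
    (hdeg : ∀ z ∈ I, (univ.filter (H.Adj z)).card ≤ s)
    (hY : ∀ y ∈ Y, ((I.filter (fun z => H.Adj z y)).card : ℝ) ≤ 4 * (s : ℝ) ^ 2 / n)
    (hB : 4 * (univ.filter (fun v => lam < (univ.filter (G.Adj v)).card)).card ≤ s)
    (t : ℝ)
    (h0 : 4 * ((Fintype.card W : ℝ) *
      Real.exp ((t - Real.exp (-(32 * s / n * lam)) * Y.card) / s)) ≤ s) :
    ∃ (Z : Finset W) (ψ : W → V), (∀ u ∈ Z, ψ u ∈ I) ∧ Set.InjOn ψ (Z : Set W) ∧
      ∀ v ∉ Z, (univ.filter (G.Adj v)).card ≤ lam ∧ t ≤ (Sv H G Y Z ψ v).card := by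
  have hs0 : (0 : ℝ) < s := by exact_mod_cast hs
  have hn0 : (0 : ℝ) < n := by
    have : 0 < n := by omega
    exact_mod_cast this
  obtain ⟨z0, hz0⟩ : I.Nonempty := by rw [← card_pos]; omega
  have hval0 : Valid H G Y I n s lam t ∅ (fun _ => z0) := by
    refine ⟨by simp, by simp, ?_⟩
    rw [sdiff_empty, empty_sdiff, card_empty, Nat.cast_zero, add_zero]
    refine le_trans ?_ h0
    have h1 : ∀ v ∈ (univ : Finset W).filter (fun v => (univ.filter (G.Adj v)).card ≤ lam),
        Fv H G Y (32 * s / n) t s lam ∅ (fun _ => z0) v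
        = Real.exp ((t - Real.exp (-(32 * s / n * lam)) * Y.card) / s) := by
      intro v _
      have e1 : Sv H G Y ∅ (fun _ => z0) v = Y := by
        unfold Sv; simp
      have e2 : jc G ∅ v = 0 := by unfold jc; simp
      rw [Fv, e1, e2, Nat.cast_zero, sub_zero]
    rw [sum_congr rfl h1, sum_const, nsmul_eq_mul]
    have h2 : (((univ : Finset W).filter
        (fun v => (univ.filter (G.Adj v)).card ≤ lam)).card : ℝ) ≤ Fintype.card W := by
      exact_mod_cast card_le_univ _
    have h3 := mul_le_mul_of_nonneg_right h2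
      (Real.exp_pos ((t - Real.exp (-(32 * s / n * lam)) * Y.card) / s)).le
    linarith
  obtain ⟨⟨Z, ψ⟩, hmem, hmax⟩ := exists_max_image
    ((univ : Finset (Finset W × (W → V))).filter (fun p => Valid H G Y I n s lam t p.1 p.2))
    (fun p => p.1.card) ⟨(∅, fun _ => z0), by simp [hval0]⟩
  rw [mem_filter] at hmem
  have hval : Valid H G Y I n s lam t Z ψ := hmem.2
  refine ⟨Z, ψ, hval.1, hval.2.1, ?_⟩
  intro v hv
  by_contra hcon
  have hkey : (univ.filter (G.Adj v)).card ≤ lam → 1 ≤ Fv H G Y (32 * s / n) t s lam Z ψ v := by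
    intro hl
    have ht : ((Sv H G Y Z ψ v).card : ℝ) < t := by
      by_contra h
      exact hcon ⟨hl, not_lt.1 h⟩
    rw [Fv]
    refine Real.one_le_exp (div_nonneg ?_ hs0.le)
    have h1 : Real.exp (-(32 * (s : ℝ) / n * ((lam : ℝ) - jc G Z v))) ≤ 1 := by
      rw [Real.exp_le_one_iff]
      have h2 : ((jc G Z v : ℕ) : ℝ) ≤ lam := by exact_mod_cast (jc_le G Z v).trans hl
      have h3 : 0 ≤ 32 * (s : ℝ) / n := by positivity
      have := mul_nonneg h3 (sub_nonneg.2 h2)
      linarith
    have h4 : Real.exp (-(32 * (s : ℝ) / n * ((lam : ℝ) - jc G Z v))) * ((Sv H G Y Z ψ v).card : ℝ)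
        ≤ 1 * ((Sv H G Y Z ψ v).card : ℝ) := mul_le_mul_of_nonneg_right h1 (by positivity)
    linarith
  obtain ⟨z, hz⟩ := extend H G Y I n s lam hs hn hI hdeg hY hB t Z ψ hval v hv hkey
  have h5 := hmax (insert v Z, Function.update ψ v z) (by rw [mem_filter]; exact ⟨mem_univ _, hz⟩)
  simp only [card_insert_of_notMem hv] at h5
  omega

end Pool.Agent.Sid84
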