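import Mathlib
import Pool.Agent.Sid84.Heavy
import Pool.Agent.Sid84.Basics
import Pool.Agent.Lib_helper79.TriRamsey.Clone

set_option autoImplicit false

namespace Pool.Agent.Sid84

open Finset

open scoped Classical

/-- The main step: `s = |I|` is the independence number of `H` and is smaller than `|W|`.
All constants are abstract here. -/
theorem main_step {V W : Type*} [Fintype V] [Fintype W] (ε : ℝ) (hε : 0 < ε)
    (ε' α τ ρ β K2 : ℝ) (lam0 : ℕ)
    (hε' : ε' = ε / 9) (hα : α = Real.exp (-(32 / ε'))) (hτ : τ = α / 4)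
    (hρ : ρ = 2 / (ε' * τ)) (hβ : β = Real.exp (-(2 * ρ)) / 2) (hK2 : K2 = 17 / ε)
    (hl0 : (48 * (1 + K2) / (β * τ * ε')) ^ 2 ≤ (lam0 : ℝ)) (hl0' : 1 ≤ lam0)
    (C : ℝ) (hC1 : 32 ≤ C) (hC2 : ε * (1 + lam0) ≤ C) (hC3 : 16 / α ≤ C)
    (hC4 : 4 / (β * τ) ≤ C)
    (H : SimpleGraph V) (G : SimpleGraph W) (hH : H.CliqueFree 3)
    (hm : ε * (G.edgeSet.ncard : ℝ) ≤ Fintype.card V)
    (hk : C * (Fintype.card W : ℝ) ≤ Fintype.card V)
    (I : Finset V) (hI : H.IsMaximumIndepSet I) (hIW : I.card < Fintype.card W) :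
    ∃ f : W → V, Function.Injective f ∧ ∀ u v, G.Adj u v → ¬ H.Adj (f u) (f v) := by
  obtain ⟨s, hs⟩ : ∃ s, s = I.card := ⟨_, rfl⟩
  obtain ⟨n, hn⟩ : ∃ n, n = Fintype.card V := ⟨_, rfl⟩
  obtain ⟨k, hkk⟩ : ∃ k, k = Fintype.card W := ⟨_, rfl⟩
  obtain ⟨m, hmm⟩ : ∃ m, m = G.edgeSet.ncard := ⟨_, rfl⟩
  rw [← hn, ← hkk] at hk
  rw [← hn, ← hmm] at hm
  rw [← hs, ← hkk] at hIW
  have hε'0 : 0 < ε' := by rw [hε']; positivity
  have hα0 : 0 < α := by rw [hα]; exact Real.exp_pos _
  have hα1 : α ≤ 1 := by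
    rw [hα, Real.exp_le_one_iff]
    have : 0 < 32 / ε' := by positivity
    linarith
  have hτ0 : 0 < τ := by rw [hτ]; positivity
  have hρ0 : 0 < ρ := by rw [hρ]; positivity
  have hβ0 : 0 < β := by rw [hβ]; positivity
  have hK0 : 0 < K2 := by rw [hK2]; positivity
  have hk0 : 0 < k := by omega
  have hk0' : (0 : ℝ) < k := by exact_mod_cast hk0
  have hn0' : (0 : ℝ) < n := lt_of_lt_of_le (by positivity) hk
  have hn0 : 0 < n := by exact_mod_cast hn0'
  have hdeg : ∀ z, (univ.filter (H.Adj z)).card ≤ s := fun z => by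
    rw [hs]; exact deg_le H hH I hI z
  have hs0 : 0 < s := by
    rw [hs]
    have : 0 < Fintype.card V := hn ▸ hn0
    obtain ⟨x⟩ := Fintype.card_pos_iff.1 this
    have h1 := hI.maximum {x} (by simp)
    rw [card_singleton] at h1
    omega
  have hs0' : (0 : ℝ) < s := by exact_mod_cast hs0
  have hns : n ≤ s * (s + 1) := by
    rw [hn]; exact card_le_indep H I s hI hs.symm hdeg
  have hns' : (n : ℝ) ≤ s * (s + 1) := by exact_mod_cast hns
  have hsk : (s : ℝ) + 1 ≤ k := by exact_mod_cast hIW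
  have hsC : C ≤ s := by
    have h1 : C * k ≤ s * k := by
      calc C * k ≤ n := hk
        _ ≤ s * (s + 1) := hns'
        _ ≤ s * k := mul_le_mul_of_nonneg_left hsk hs0'.le
    exact le_of_mul_le_mul_right h1 hk0'
  have hCs : C * s ≤ n := by
    refine le_trans ?_ hk
    exact mul_le_mul_of_nonneg_left (by linarith) (by linarith)
  have h32' : 32 * (s : ℝ) ≤ n := by
    calc 32 * (s : ℝ) ≤ 32 * k := mul_le_mul_of_nonneg_left (by linarith only [hsk]) (by norm_num)
      _ ≤ C * k := mul_le_mul_of_nonneg_right hC1 hk0'.le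
      _ ≤ n := hk
  have h32 : 32 * s ≤ n := by exact_mod_cast h32'
  -- the degree threshold
  set lam : ℕ := ⌈8 * (m : ℝ) / s⌉₊ + lam0 with hlam
  have hlam1 : 8 * (m : ℝ) / s + lam0 ≤ lam := by
    rw [hlam]; push_cast
    linarith [Nat.le_ceil (8 * (m : ℝ) / s)]
  have hlam2 : (lam : ℝ) ≤ 8 * (m : ℝ) / s + 1 + lam0 := by
    rw [hlam]; push_cast
    have := Nat.ceil_lt_add_one (show (0:ℝ) ≤ 8 * (m : ℝ) / s by positivity)
    linarith
  have hlam0 : 0 < lam := by omega
  have hlam0' : (0 : ℝ) < lam := by exact_mod_cast hlam0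
  have h8 : 8 * m ≤ lam * s := by
    have h1 : 8 * (m : ℝ) ≤ lam * s := by
      have h2 : 8 * (m : ℝ) / s ≤ lam := by
        have : (0:ℝ) ≤ lam0 := Nat.cast_nonneg _
        linarith
      rwa [div_le_iff₀ hs0'] at h2
    exact_mod_cast h1
  have hls : (lam : ℝ) * s ≤ n / ε' := by
    have h1 : (lam : ℝ) * s ≤ 8 * m + (1 + lam0) * s := by
      have := mul_le_mul_of_nonneg_right hlam2 hs0'.le
      have e : (8 * (m : ℝ) / s + 1 + lam0) * s = 8 * m + (1 + lam0) * s := by
        field_simp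
        ring
      rwa [e] at this
    have h2 : (lam : ℝ) * s * ε ≤ 9 * n := by
      have h3 : ε * (1 + lam0) * s ≤ C * s := mul_le_mul_of_nonneg_right hC2 hs0'.le
      have h4 := mul_le_mul_of_nonneg_right h1 hε.le
      linarith only [h3, h4, hCs, hm]
    rw [hε', le_div_iff₀ (by positivity)]
    linarith
  have hlamK : (lam : ℝ) ≤ K2 * s := by
    have h1 : 8 * (m : ℝ) / s ≤ 8 * (s + 1) / ε := by
      rw [div_le_div_iff₀ hs0' hε]
      have : ε * m ≤ s * (s + 1) := hm.trans hns'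
      linarith only [this]
    have h2 : (lam : ℝ) ≤ 8 * (s + 1) / ε + 1 + lam0 := by linarith
    refine h2.trans ?_
    rw [hK2]
    have h3 : ε * (1 + lam0) ≤ s := hC2.trans hsC
    have h4 : (1 : ℝ) ≤ s := by linarith
    have h5 : 8 * ((s : ℝ) + 1) / ε + 1 + lam0 = (8 * (s + 1) + ε * (1 + lam0)) / ε := by
      field_simp
      ring
    rw [h5, div_mul_eq_mul_div]
    exact div_le_div_of_nonneg_right (by linarith) hε.le
  have hlamle : (lam0 : ℝ) ≤ lam := by
    have : (0:ℝ) ≤ 8 * (m : ℝ) / s := by positivity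
    linarith
  -- the set `Y`
  set Y := univ.filter (fun y => y ∉ I ∧
      ((I.filter (fun z => H.Adj z y)).card : ℝ) ≤ 4 * (s : ℝ) ^ 2 / n) with hY
  have hYc : (n : ℝ) / 2 ≤ (Y.card : ℝ) :=
    half_le H I s n hn.symm hs0 hs.symm (by omega) (fun z _ => hdeg z)
  have hYI : ∀ y ∈ Y, y ∉ I := fun y hy => by
    rw [hY, mem_filter] at hy; exact hy.2.1
  have hY2 : ∀ y ∈ Y, ((I.filter (fun z => H.Adj z y)).card : ℝ) ≤ 4 * (s : ℝ) ^ 2 / n :=
    fun y hy => by rw [hY, mem_filter] at hy; exact hy.2.2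
  have hB := heavy_le G s lam hlam0 (by rw [← hmm]; exact h8)
  have h0 : 4 * ((Fintype.card W : ℝ) *
      Real.exp ((τ * n - Real.exp (-(32 * s / n * lam)) * Y.card) / s)) ≤ s := by
    rw [← hkk]
    have h1 : α ≤ Real.exp (-(32 * s / n * lam)) := by
      rw [hα]
      refine Real.exp_le_exp.2 (neg_le_neg ?_)
      have : 32 * (s : ℝ) / n * lam = 32 * (lam * s) / n := by ring
      rw [this, div_le_div_iff₀ hn0' hε'0]
      rw [le_div_iff₀ hε'0] at hls
      linarith only [hls]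
    have h2 : (τ * n - Real.exp (-(32 * s / n * lam)) * Y.card) / s ≤ -(α * n / (4 * s)) := by
      have h3 : α * (n / 2) ≤ Real.exp (-(32 * s / n * lam)) * Y.card :=
        mul_le_mul h1 hYc (by positivity) (Real.exp_pos _).le
      rw [div_le_iff₀ hs0']
      have h4 : -(α * n / (4 * s)) * s = -(α * n / 4) := by
        field_simp
      rw [h4, hτ]
      linarith
    have h5 : Real.exp ((τ * n - Real.exp (-(32 * s / n * lam)) * Y.card) / s)
        ≤ (4 * s) / (α * n) := by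
      refine (Real.exp_le_exp.2 h2).trans ?_
      rw [Real.exp_neg]
      have h6 : α * n / (4 * s) ≤ Real.exp (α * n / (4 * s)) := by
        linarith [Real.add_one_le_exp (α * n / (4 * s))]
      have h7 := inv_anti₀ (by positivity) h6
      refine h7.trans ?_
      rw [inv_div]
    have h6 : 4 * ((k : ℝ) * Real.exp ((τ * n - Real.exp (-(32 * s / n * lam)) * Y.card) / s))
        ≤ 4 * (k * ((4 * s) / (α * n))) :=
      mul_le_mul_of_nonneg_left (mul_le_mul_of_nonneg_left h5 hk0'.le) (by norm_num)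
    refine h6.trans ?_
    have h7 : 4 * ((k : ℝ) * ((4 * s) / (α * n))) = s * (16 * k) / (α * n) := by ring
    rw [h7, div_le_iff₀ (by positivity)]
    refine mul_le_mul_of_nonneg_left ?_ hs0'.le
    rw [div_le_iff₀ hα0] at hC3
    have h8 := mul_le_mul_of_nonneg_right hC3 hk0'.le
    have h9 := mul_le_mul_of_nonneg_right hk hα0.le
    linarith only [h8, h9]
  obtain ⟨Z, ψ, hψI, hψinj, hgood⟩ := exists_Z H G Y I n s lam hs0 h32 hs.symm
    (fun z _ => hdeg z) hY2 hB (τ * n) h0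
  -- the remaining vertices
  let W' := {v : W // v ∉ Z}
  let G' : SimpleGraph W' := G.comap Subtype.val
  let P : W' → Finset V := fun v => Sv H G Y Z ψ v.1
  have hp0 : 0 < τ * n := by positivity
  set M : ℝ := Real.sqrt (6 * lam) with hM
  have hM0 : 0 < M := Real.sqrt_pos.2 (by positivity)
  have hM2 : M ^ 2 = 6 * lam := Real.sq_sqrt (by positivity)
  set w : ℝ := M / (β * (τ * n)) with hw
  have hw0 : 0 ≤ w := by positivity
  -- bound on `M`
  set R : ℝ := 48 * (1 + K2) / (β * τ * ε') with hR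
  have hR0 : 0 < R := by positivity
  have hMR : 16 * (1 + K2) * M ≤ β * τ * ε' * lam := by
    -- `M ≤ 3 √lam` and `√lam ≥ R`
    have h1 : R ^ 2 ≤ (lam : ℝ) := hl0.trans hlamle
    have h2 : M * R ≤ 3 * lam := by
      have h3 : (M * R) ^ 2 ≤ (3 * lam) ^ 2 := by
        rw [mul_pow, hM2]
        have h4 : 6 * (lam : ℝ) * R ^ 2 ≤ 6 * lam * lam :=
          mul_le_mul_of_nonneg_left h1 (by positivity)
        have h5 : (0 : ℝ) ≤ lam * lam := by positivity
        linarith only [h4, h5]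
      exact le_of_sq_le_sq h3 (by positivity)
    have h4 : R * (β * τ * ε') = 48 * (1 + K2) := by
      rw [hR]; field_simp
    have h5 : M * R * (β * τ * ε') ≤ 3 * lam * (β * τ * ε') :=
      mul_le_mul_of_nonneg_right h2 (by positivity)
    rw [mul_assoc M, h4] at h5
    linarith only [h5]
  have hws : w * s ≤ 1 / 8 := by
    rw [hw, div_mul_eq_mul_div, div_le_iff₀ (by positivity)]
    have h1 : ε' * (lam * s) ≤ n := by
      rw [le_div_iff₀ hε'0] at hls; linarith
    -- `8 M s ≤ β τ n`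
    have h2 : 8 * M ≤ β * τ * ε' * lam := by
      linarith only [hMR, mul_nonneg hK0.le hM0.le, hM0]
    have h3 : 8 * M * s ≤ β * τ * (ε' * (lam * s)) := by
      have := mul_le_mul_of_nonneg_right h2 hs0'.le
      linarith
    have h4 : β * τ * (ε' * (lam * s)) ≤ β * τ * n := mul_le_mul_of_nonneg_left h1 (by positivity)
    linarith
  have hwD : 2 * (lam : ℝ) * w ≤ 1 / 8 := by
    rw [hw, mul_div_assoc', div_le_iff₀ (by positivity)]
    have h1 : ε' * (lam * s) ≤ n := by
      rw [le_div_iff₀ hε'0] at hls; linarith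
    have h2 : 16 * M * K2 ≤ β * τ * ε' * lam := by
      linarith only [hMR, mul_nonneg hK0.le hM0.le, hM0]
    -- `16 lam M ≤ 16 K2 s M ≤ β τ ε' lam s`
    have h3 : 16 * M * lam ≤ β * τ * (ε' * (lam * s)) := by
      have h4 : 16 * M * lam ≤ 16 * M * (K2 * s) := mul_le_mul_of_nonneg_left hlamK (by positivity)
      have h5 := mul_le_mul_of_nonneg_right h2 hs0'.le
      linarith
    have h4 : β * τ * (ε' * (lam * s)) ≤ β * τ * n := mul_le_mul_of_nonneg_left h1 (by positivity)
    linarith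
  obtain ⟨φ, hφinj, hφP, hφ⟩ := Pool.Agent.TriRamsey.clone_lemma H
    (fun x y z hxy hxz hyz => hH {x, y, z} (SimpleGraph.is3Clique_triple_iff.2 ⟨hxy, hxz, hyz⟩))
    G' P lam s w M ρ (τ * n) hw0 hM0 hρ0.le
    (by
      intro v
      have h1 : (univ.filter (fun u : W' => G'.Adj v u)).card
          ≤ (univ.filter (G.Adj v.1)).card := by
        rw [← card_map ⟨Subtype.val, Subtype.val_injective⟩]
        refine card_le_card ?_
        intro x hx
        rw [mem_map] at hx
        obtain ⟨y, hy, rfl⟩ := hx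
        rw [mem_filter] at hy ⊢
        exact ⟨mem_univ _, hy.2⟩
      exact h1.trans (hgood v.1 v.2).1)
    (fun x => hdeg x) hws hwD
    (fun v => (hgood v.1 v.2).2)
    (by
      have h1 : ρ * (τ * n) = 2 * (n / ε') := by
        rw [hρ]; field_simp
      rw [h1]
      linarith)
    (by
      have h1 : (Fintype.card W' : ℝ) ≤ k := by
        rw [hkk]
        exact_mod_cast Fintype.card_subtype_le _
      have h2 : 1 / 4 * Real.exp (-(2 * ρ)) * (τ * n) = β * τ * n / 2 := by
        rw [hβ]; ring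
      rw [h2]
      rw [div_le_iff₀ (by positivity)] at hC4
      have h3 : 4 * (k : ℝ) ≤ β * τ * n := by
        have h4 : 4 * (k : ℝ) ≤ C * (β * τ) * k := mul_le_mul_of_nonneg_right hC4 hk0'.le
        have h5 : C * k * (β * τ) ≤ n * (β * τ) := mul_le_mul_of_nonneg_right hk (by positivity)
        linarith
      linarith)
    (by
      have h1 : w * (1 / 2 * Real.exp (-(2 * ρ)) * (τ * n)) = M := by
        have h2 : 1 / 2 * Real.exp (-(2 * ρ)) * (τ * n) = β * (τ * n) := by
          rw [hβ]; ring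
        rw [h2, hw]
        field_simp
      exact h1.ge)
    hM2.ge
  refine ⟨fun v => if h : v ∈ Z then ψ v else φ ⟨v, h⟩, ?_, ?_⟩
  · intro a b hab
    by_cases ha : a ∈ Z
    · by_cases hb : b ∈ Z
      · simp only [ha, hb, dif_pos] at hab
        exact hψinj ha hb hab
      · simp only [ha, hb, dif_pos, dif_neg, not_false_eq_true] at hab
        have h1 := hφP ⟨b, hb⟩
        rw [← hab] at h1
        exact absurd (hψI a ha) (hYI _ (mem_of_mem_filter _ h1))
    · by_cases hb : b ∈ Z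
      · simp only [ha, hb, dif_pos, dif_neg, not_false_eq_true] at hab
        have h1 := hφP ⟨a, ha⟩
        rw [hab] at h1
        exact absurd (hψI b hb) (hYI _ (mem_of_mem_filter _ h1))
      · simp only [ha, hb, dif_neg, not_false_eq_true] at hab
        exact congrArg Subtype.val (hφinj hab)
  · intro a b hab
    by_cases ha : a ∈ Z
    · by_cases hb : b ∈ Z
      · simp only [ha, hb, dif_pos]
        intro hadj
        exact hI.isIndepSet (hψI a ha) (hψI b hb) hadj.ne hadj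
      · simp only [ha, hb, dif_pos, dif_neg, not_false_eq_true]
        have h1 := hφP ⟨b, hb⟩
        exact (mem_filter.1 h1).2 a ha hab.symm
    · by_cases hb : b ∈ Z
      · simp only [ha, hb, dif_pos, dif_neg, not_false_eq_true]
        have h1 := hφP ⟨a, ha⟩
        intro hadj
        exact (mem_filter.1 h1).2 b hb hab hadj.symm
      · simp only [ha, hb, dif_neg, not_false_eq_true]
        exact hφ ⟨a, ha⟩ ⟨b, hb⟩ hab

/-- For every `ε > 0` there is `C` such that every graph `G` with `k` vertices and `m` edges embeds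
in the complement of every triangle-free graph with at least `max (ε m) (C k)` vertices. -/
theorem ramsey_eps (ε : ℝ) (hε : 0 < ε) : ∃ C : ℝ, 0 < C ∧
    ∀ (V W : Type) [Fintype V] [Fintype W] (H : SimpleGraph V) (G : SimpleGraph W),
      H.CliqueFree 3 → ε * (G.edgeSet.ncard : ℝ) ≤ Fintype.card V →
      C * (Fintype.card W : ℝ) ≤ Fintype.card V →
      ∃ f : W → V, Function.Injective f ∧ ∀ u v, G.Adj u v → ¬ H.Adj (f u) (f v) := by
  obtain ⟨ε', hε'⟩ : ∃ x : ℝ, x = ε / 9 := ⟨_, rfl⟩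
  obtain ⟨α, hα⟩ : ∃ x : ℝ, x = Real.exp (-(32 / ε')) := ⟨_, rfl⟩
  obtain ⟨τ, hτ⟩ : ∃ x : ℝ, x = α / 4 := ⟨_, rfl⟩
  obtain ⟨ρ, hρ⟩ : ∃ x : ℝ, x = 2 / (ε' * τ) := ⟨_, rfl⟩
  obtain ⟨β, hβ⟩ : ∃ x : ℝ, x = Real.exp (-(2 * ρ)) / 2 := ⟨_, rfl⟩
  obtain ⟨K2, hK2⟩ : ∃ x : ℝ, x = 17 / ε := ⟨_, rfl⟩
  obtain ⟨lam0, hl0⟩ : ∃ x : ℕ, x = ⌈(48 * (1 + K2) / (β * τ * ε')) ^ 2⌉₊ + 1 := ⟨_, rfl⟩
  have hε'0 : 0 < ε' := by rw [hε']; positivity
  have hα0 : 0 < α := by rw [hα]; exact Real.exp_pos _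
  have hτ0 : 0 < τ := by rw [hτ]; positivity
  have hβ0 : 0 < β := by rw [hβ]; positivity
  have hl1 : (48 * (1 + K2) / (β * τ * ε')) ^ 2 ≤ (lam0 : ℝ) := by
    rw [hl0]; push_cast
    linarith [Nat.le_ceil ((48 * (1 + K2) / (β * τ * ε')) ^ 2)]
  have e1 : 0 < ε * (1 + (lam0 : ℝ)) := by positivity
  have e2 : 0 < 16 / α := by positivity
  have e3 : 0 < 4 / (β * τ) := by positivity
  refine ⟨32 + ε * (1 + lam0) + 16 / α + 4 / (β * τ), by positivity, ?_⟩
  intro V W _ _ H G hH hm hk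
  obtain ⟨I, hI⟩ := SimpleGraph.maximumIndepSet_exists (G := H)
  by_cases hIW : I.card < Fintype.card W
  · exact main_step ε hε ε' α τ ρ β K2 lam0 hε' hα hτ hρ hβ hK2 hl1 (by omega)
      (32 + ε * (1 + lam0) + 16 / α + 4 / (β * τ)) (by linarith) (by linarith) (by linarith)
      (by linarith) H G hH hm hk I hI hIW
  · push Not at hIW
    have h1 : Fintype.card W ≤ Fintype.card I := by rwa [Fintype.card_coe]
    obtain ⟨g⟩ := Function.Embedding.nonempty_of_card_le h1
    refine ⟨fun v => (g v).1, fun a b hab => g.injective (Subtype.ext hab), ?_⟩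
    intro u v _ hadj
    exact hI.isIndepSet (g u).2 (g v).2 hadj.ne hadj

end Pool.Agent.Sid84
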